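import Pool.Agent.Y969.GP.Def3

/-!
# Project GP: the product of zeta values near `t = 0`, mean over the shifts
-/

set_option autoImplicit false

namespace Pool.Agent.Y232.GP

open Complex Filter Topology MeasureTheory Set
open Pool.Agent.Y969.GP

theorem ff_cont : Continuous ff := by
  unfold ff
  refine (continuous_iff_continuousAt.2 fun u => ?_).norm.pow 2
  have h1 : (1 / 2 + I * (u : ℂ)) ≠ 1 := by
    intro h
    have := congrArg Complex.re h
    simp at this
  have h2 := (differentiableAt_riemannZeta h1).continuousAt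
  exact ContinuousAt.comp (f := fun u : ℝ => 1 / 2 + I * (u : ℂ)) (g := riemannZeta) h2
    (by fun_prop)

theorem ff_nonneg (u : ℝ) : 0 ≤ ff u := by
  unfold ff
  positivity

theorem cc_cont {n : ℕ} (i : Fin (n + 1)) : Continuous (fun c : Fin n → ℝ => (cc c i : ℝ)) := by
  refine Fin.cases ?_ (fun j => ?_) i
  · simp only [cc, Fin.cons_zero]
    exact continuous_const
  · simp only [cc, Fin.cons_succ]
    exact continuous_apply j

theorem prod_cont (n : ℕ) :
    Continuous (fun q : (Fin n → ℝ) × ℝ => ∏ j, ff (q.2 + cc q.1 j)) := by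
  refine continuous_finset_prod _ fun i _ => ?_
  exact ff_cont.comp (continuous_snd.add ((cc_cont i).comp continuous_fst))

theorem inner_le (C a T t : ℝ) (hT : 2 ≤ T) (ha : 0 ≤ a) (haT : a ≤ T) (ht : t ∈ Icc (0 : ℝ) 1)
    (hC : ∫ u in (0:ℝ)..(2 * T), ff u ≤ C) : ∫ x in Icc a T, ff (t + x) ≤ C := by
  rw [integral_Icc_eq_integral_Ioc, ← intervalIntegral.integral_of_le haT,
    intervalIntegral.integral_comp_add_left (fun u => ff u) t]
  refine le_trans ?_ hC
  refine intervalIntegral.integral_mono_interval ?_ ?_ ?_ ?_ ?_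
  · linarith [ht.1]
  · linarith
  · linarith [ht.2]
  · exact ae_of_all _ fun u => ff_nonneg u
  · exact ff_cont.intervalIntegrable _ _

theorem fub {n : ℕ} (a T M : ℝ) (hM : 0 ≤ M)
    (hb : ∀ t ∈ Icc (0 : ℝ) 1, ∫ x in Icc a T, ff (t + x) ≤ M) :
    ∫ c in Icc (fun _ : Fin n => a) (fun _ => T), (∫ t in (0 : ℝ)..1, ∏ j, ff (t + cc c j)) ≤
      (∫ t in (0 : ℝ)..1, ff t) * M ^ n := by
  have hbox : Icc (fun _ : Fin n => a) (fun _ => T) = Set.univ.pi fun _ => Icc a T :=
    (Set.pi_univ_Icc _ _).symm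
  have hmu : (volume : Measure (Fin n → ℝ)).restrict (Icc (fun _ : Fin n => a) (fun _ => T)) =
      Measure.pi fun _ => volume.restrict (Icc a T) := by
    rw [hbox, volume_pi, ← Measure.restrict_pi_pi]
  have hint : Integrable (Function.uncurry fun (c : Fin n → ℝ) (t : ℝ) => ∏ i, ff (t + cc c i))
      (((volume : Measure (Fin n → ℝ)).restrict (Icc (fun _ : Fin n => a) (fun _ => T))).prod
        (volume.restrict (Icc 0 1))) := by
    rw [Measure.prod_restrict]
    exact (prod_cont n).continuousOn.integrableOn_compact (isCompact_Icc.prod isCompact_Icc)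
  have h0 : ∀ c : Fin n → ℝ, ∫ t in (0 : ℝ)..1, ∏ j, ff (t + cc c j) =
      ∫ t in Icc (0 : ℝ) 1, ∏ j, ff (t + cc c j) := by
    intro c
    rw [intervalIntegral.integral_of_le zero_le_one, integral_Icc_eq_integral_Ioc]
  simp_rw [h0]
  rw [integral_integral_swap hint]
  have h1 : ∀ t : ℝ, ∫ c in Icc (fun _ : Fin n => a) (fun _ => T), ∏ i, ff (t + cc c i) =
      ff t * ∏ _i : Fin n, ∫ x in Icc a T, ff (t + x) := by
    intro t
    have h2 : ∀ c : Fin n → ℝ, ∏ i, ff (t + cc c i) = ff t * ∏ i : Fin n, ff (t + c i) := by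
      intro c
      rw [Fin.prod_univ_succ]
      simp only [cc, Fin.cons_zero, Fin.cons_succ, add_zero]
    simp_rw [h2]
    rw [integral_const_mul, hmu, integral_fintype_prod_eq_prod (fun (_i : Fin n) (x : ℝ) => ff (t + x))]
  simp_rw [h1]
  rw [intervalIntegral.integral_of_le zero_le_one, ← integral_Icc_eq_integral_Ioc,
    ← integral_mul_const]
  have hI : IntegrableOn ff (Icc (0 : ℝ) 1) := ff_cont.continuousOn.integrableOn_compact isCompact_Icc
  refine integral_mono_of_nonneg (ae_of_all _ fun t => ?_) (hI.mul_const _) ?_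
  · exact mul_nonneg (ff_nonneg t) (Finset.prod_nonneg fun i _ =>
      integral_nonneg fun x => ff_nonneg _)
  · filter_upwards [ae_restrict_mem measurableSet_Icc] with t ht
    refine mul_le_mul_of_nonneg_left ?_ (ff_nonneg t)
    rw [Finset.prod_const, Finset.card_univ, Fintype.card_fin]
    exact pow_le_pow_left₀ (integral_nonneg fun x => ff_nonneg _) (hb t ht) n

theorem t_E1 (h : S_SM) : S_E1 := by
  intro n ε hε
  obtain ⟨C, hC, hSM⟩ := h
  set δ : ℝ := ε / (2 * (n + 1)) with hδ
  have hδ0 : 0 < δ := by positivity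
  have hδn : δ * n ≤ ε / 2 := by
    rw [hδ, div_mul_eq_mul_div, div_le_iff₀ (by positivity)]
    nlinarith
  set K : ℝ := (∫ t in (0 : ℝ)..1, ff t) * (C / δ) ^ n with hK
  have htend : Tendsto (fun T : ℝ => T ^ (ε / 2)) atTop atTop := tendsto_rpow_atTop (by positivity)
  obtain ⟨T₁, hT₁⟩ := eventually_atTop.1 (htend.eventually_ge_atTop K)
  refine ⟨max 2 T₁, le_trans one_le_two (le_max_left _ _), fun a T hT ha haT => ?_⟩
  have hT2 : 2 ≤ T := le_trans (le_max_left _ _) hT
  have hTT : K ≤ T ^ (ε / 2) := hT₁ T (le_trans (le_max_right _ _) hT)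
  have hT0 : 0 < T := by linarith
  have hT1 : 1 ≤ T := by linarith
  constructor
  · refine ContinuousOn.integrableOn_compact isCompact_Icc (Continuous.continuousOn ?_)
    exact intervalIntegral.continuous_parametric_intervalIntegral_of_continuous' (prod_cont n) 0 1
  · have hM : 0 ≤ C * T * Real.log T := by
      have := Real.log_nonneg hT1
      positivity
    refine (fub (n := n) a T (C * T * Real.log T) hM fun t ht =>
      inner_le _ a T t hT2 ha haT ht (hSM T hT2)).trans ?_
    have h1 : C * T * Real.log T ≤ (C / δ) * T ^ (1 + δ) := by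
      have h2 : Real.log T ≤ T ^ δ / δ := Real.log_le_rpow_div hT0.le hδ0
      calc C * T * Real.log T ≤ C * T * (T ^ δ / δ) :=
            mul_le_mul_of_nonneg_left h2 (by positivity)
        _ = (C / δ) * T ^ (1 + δ) := by
            rw [Real.rpow_add hT0, Real.rpow_one]
            ring
    have hff : 0 ≤ ∫ t in (0 : ℝ)..1, ff t :=
      intervalIntegral.integral_nonneg zero_le_one fun t _ => ff_nonneg t
    calc (∫ t in (0 : ℝ)..1, ff t) * (C * T * Real.log T) ^ n
        ≤ (∫ t in (0 : ℝ)..1, ff t) * ((C / δ) * T ^ (1 + δ)) ^ n :=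
          mul_le_mul_of_nonneg_left (pow_le_pow_left₀ hM h1 n) hff
      _ = K * T ^ ((n : ℝ) + δ * n) := by
          rw [mul_pow, ← Real.rpow_natCast (T ^ (1 + δ)) n, ← Real.rpow_mul hT0.le, hK]
          have : (1 + δ) * (n : ℝ) = (n : ℝ) + δ * n := by ring
          rw [this]
          ring
      _ ≤ T ^ (ε / 2) * T ^ ((n : ℝ) + ε / 2) := by
          refine mul_le_mul hTT ?_ (by positivity) (by positivity)
          exact Real.rpow_le_rpow_of_exponent_le hT1 (by linarith)
      _ = T ^ ((n : ℝ) + ε) := by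
          rw [← Real.rpow_add hT0]
          congr 1
          ring

end Pool.Agent.Y232.GP
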